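import Pool.Agent.Q49.ME.Erg

/-! Multiple ergodic averages along one set whose balanced indicator function has small Gowers norms (the arguments of
`MP_2d22f3_nt.MultipleRecurrence` for one set instead of the invariant sets). -/

set_option autoImplicit false

namespace Pool.Agent.Q179.RE

open Filter Topology MeasureTheory

/-- `1` if `s n ∈ S`, and `0` otherwise -/
noncomputable def ind (s : ℤ) (S : Set ℤ) (n : ℕ) : ℝ := S.indicator (fun _ => (1 : ℝ)) (s * n)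

/-- `k` commuting invertible measure preserving transformations of a probability space `X` -/
structure System (k : ℕ) (X : Type) [MeasurableSpace X] where
  μ : Measure X
  prob : IsProbabilityMeasure μ
  T : Fin k → X ≃ᵐ X
  mp : ∀ i, MeasurePreserving (T i) μ μ
  comm : ∀ i j x, T i (T j x) = T j (T i x)

/-- the product `f 1 (T 1 ^ n x) ⋯ f k (T k ^ n x)` -/
noncomputable def System.P {k : ℕ} {X : Type} [MeasurableSpace X] (Y : System k X) (f : Fin k → X → ℂ) (n : ℕ) (x : X) : ℂ :=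
  ∏ i, f i ((Y.T i)^[n] x)

/-- measurable functions with values in the unit disc -/
def Bounded {k : ℕ} {X : Type} [MeasurableSpace X] (f : Fin k → X → ℂ) : Prop :=
  ∀ i, Measurable (f i) ∧ ∀ x, ‖f i x‖ ≤ 1

/-- the measure of `A₀ ∩ T 1 ^ (-n) A 1 ∩ ... ∩ T k ^ (-n) A k` -/
noncomputable def System.ret {k : ℕ} {X : Type} [MeasurableSpace X] (Y : System k X) (A₀ : Set X) (A : Fin k → Set X)
    (n : ℕ) : ℝ := Y.μ.real (A₀ ∩ {x | ∀ i, (Y.T i)^[n] x ∈ A i})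

open Pool.Agent.W41 Pool.Agent.H499R2.ND Pool.Agent.H499R2.CO Pool.Agent.W41.FU Pool.Agent.W36.GU Pool.Agent.W36.GV Pool.Agent.Q49.ME
  Pool.Agent.W36.GK

/-- the balanced indicator function has small Gowers norms of all orders -/
def GUs (s : ℤ) (S : Set ℤ) (δ : ℝ) : Prop := ∀ k : ℕ, Sm (k + 1) {bal s S δ}

universe u

/-- the weighted multiple ergodic averages are small in quadratic mean, uniformly -/
theorem ergS {s : ℤ} {S : Set ℤ} {δ : ℝ} (h : GUs s S δ) (k : ℕ) {ε : ℝ} (hε : 0 < ε) : ∃ N0 : ℕ, 1 ≤ N0 ∧ ∀ N : ℕ, N0 ≤ N →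
    ∀ (X : Type u) [MeasurableSpace X] (μ : Measure X) [IsProbabilityMeasure μ]
      (T : Fin k → Equiv.Perm X), (∀ i, MPr μ (T i)) → (∀ i j, Commute (T i) (T j)) → ∀ f : Fin k → X → ℂ, BM f →
      B μ T f (win 0 N (bal s S δ)) N ≤ ε * N ^ 2 := by
  have hsm : Sm (k + 1) {bal s S δ} := h k
  obtain ⟨N0, h0⟩ := hsm (ε ^ (2 ^ k) / 3 ^ Pool.Agent.Q49.ME.ee k) (by positivity)
  refine ⟨N0 + 1, by omega, fun N hN X _ μ _ T hT hc f hf => ?_⟩
  set F := bal s S δ with hF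
  have hN1 : (1 : ℝ) ≤ N := by exact_mod_cast (by omega : 1 ≤ N)
  have h1 := gvn (μ := μ) (N := N) k hT hc hf (win_sup N F)
  have h2 := h0 N (by omega) F rfl 0 N (by omega) le_rfl
  have h3 : B μ T f (win 0 N F) N ^ (2 ^ k) ≤ (ε * N ^ 2) ^ (2 ^ k) := by
    refine h1.trans ?_
    calc (2 * (N : ℝ) + 1) ^ Pool.Agent.Q49.ME.ee k * GN (k + 1) (win 0 N F) N
        ≤ (3 * N) ^ Pool.Agent.Q49.ME.ee k * (ε ^ (2 ^ k) / 3 ^ Pool.Agent.Q49.ME.ee k * (N : ℝ) ^ (k + 1 + 1)) := by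
          apply mul_le_mul (pow_le_pow_left₀ (by positivity) (by linarith) _) h2 (GN_nonneg k (win_sup N F)) (by positivity)
      _ = ε ^ (2 ^ k) * ((N : ℝ) ^ (Pool.Agent.Q49.ME.ee k + k + 2)) := by
          rw [mul_pow, show Pool.Agent.Q49.ME.ee k + k + 2 = Pool.Agent.Q49.ME.ee k + (k + 1 + 1) by ring, pow_add (N : ℝ) (Pool.Agent.Q49.ME.ee k)]
          field_simp
      _ = (ε * N ^ 2) ^ (2 ^ k) := by
          rw [ee_eq, mul_pow, ← pow_mul]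
          congr 2
          rw [pow_succ]; ring
  exact le_of_pow_le_pow_left₀ (by positivity) (by positivity) h3

theorem ind_bal (s : ℤ) (S : Set ℤ) (δ : ℝ) (n : ℕ) : ind s S n - δ = bal s S δ n := by
  unfold ind bal Pool.Agent.W41.ind
  by_cases h : s * (n : ℤ) ∈ S
  · rw [Set.indicator_of_mem h, if_pos h]
  · rw [Set.indicator_of_notMem h, if_neg h]

theorem ind01 (s : ℤ) (S : Set ℤ) (n : ℕ) : 0 ≤ ind s S n ∧ ind s S n ≤ 1 := by
  unfold ind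
  by_cases h : s * (n : ℤ) ∈ S
  · rw [Set.indicator_of_mem h]; norm_num
  · rw [Set.indicator_of_notMem h]; norm_num

section
variable {k : ℕ} {X : Type} [MeasurableSpace X] (Y : System k X)

/-- the transformations as permutations -/
def tp (i : Fin k) : Equiv.Perm X := (Y.T i).toEquiv

theorem tp_pow (i : Fin k) (n : ℕ) (x : X) : (tp Y i ^ (n : ℤ)) x = (Y.T i)^[n] x := by
  rw [zpow_natCast]
  have h : (tp Y i)^[n] = ⇑(tp Y i ^ n) := Equiv.Perm.iterate_eq_pow _ _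
  rw [← h]
  rfl

theorem tp_mp (i : Fin k) : MPr Y.μ (tp Y i) := ⟨Y.mp i, (Y.mp i).symm⟩

theorem tp_comm (i j : Fin k) : Commute (tp Y i) (tp Y j) := by
  apply Equiv.ext
  intro x
  exact Y.comm i j x

theorem P_W (f : Fin k → X → ℂ) (n : ℕ) (x : X) : Y.P f n x = Pool.Agent.Q49.ME.W (tp Y) f n x := by
  unfold System.P Pool.Agent.Q49.ME.W
  apply Finset.prod_congr rfl; intro i _
  rw [tp_pow]

theorem BM_of {f : Fin k → X → ℂ} (hf : Bounded f) : BM f := ⟨fun i => (hf i).1, fun i => (hf i).2⟩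

theorem sum_cast {E : Type} [AddCommMonoid E] (g : ℤ → E) (N : ℕ) :
    ∑ n ∈ Finset.Icc (1 : ℤ) N, g n = ∑ n ∈ Finset.Icc 1 N, g (n : ℤ) := by
  have h : (Finset.Icc 1 N).image (fun n : ℕ => (n : ℤ)) = Finset.Icc (1 : ℤ) N := by
    ext t
    rw [Finset.mem_image, Finset.mem_Icc]
    constructor
    · rintro ⟨n, hn, rfl⟩
      rw [Finset.mem_Icc] at hn
      exact ⟨by exact_mod_cast hn.1, by exact_mod_cast hn.2⟩
    · rintro ⟨h1, h2⟩
      exact ⟨t.toNat, by rw [Finset.mem_Icc]; constructor <;> omega, by omega⟩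
  rw [← h, Finset.sum_image (fun a _ b _ hab => by exact_mod_cast hab)]

theorem B_eq (f : Fin k → X → ℂ) (s : ℤ) (S : Set ℤ) (δ : ℝ) (N : ℕ) :
    B Y.μ (tp Y) f (win 0 N (bal s S δ)) N = ∫ x, ‖∑ n ∈ Finset.Icc 1 N, ((ind s S n - δ : ℝ) : ℂ) * Y.P f n x‖ ^ 2 ∂Y.μ := by
  unfold B
  congr 1
  funext x
  rw [sum_cast]
  congr 2
  apply Finset.sum_congr rfl; intro n hn
  rw [Finset.mem_Icc] at hn
  rw [P_W, ind_bal]
  unfold win
  rw [if_pos ⟨by push_cast; omega, by exact_mod_cast hn.2⟩]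

theorem P_meas {f : Fin k → X → ℂ} (hf : Bounded f) (n : ℕ) : Measurable (Y.P f n) := by
  have h := W_meas (tp_mp Y) (BM_of hf) (n : ℤ)
  have e : Y.P f n = Pool.Agent.Q49.ME.W (tp Y) f n := funext fun x => P_W Y f n x
  rw [e]; exact h

theorem P_norm {f : Fin k → X → ℂ} (hf : Bounded f) (n : ℕ) (x : X) : ‖Y.P f n x‖ ≤ 1 := by
  rw [P_W]; exact W_norm _ (BM_of hf) _ _

end

/-- the sum over the return times -/
theorem ret_sum {k : ℕ} {X : Type} [MeasurableSpace X] (Y : System k X) {A₀ : Set X} {A : Fin k → Set X}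
    (hA₀ : MeasurableSet A₀) (hA : ∀ i, MeasurableSet (A i)) (c : ℕ → ℝ) (N : ℕ) :
    |∑ n ∈ Finset.Icc 1 N, c n * Y.ret A₀ A n| ≤
      Real.sqrt (∫ x, ‖∑ n ∈ Finset.Icc 1 N, (c n : ℂ) * Y.P (fun i => (A i).indicator (fun _ => 1)) n x‖ ^ 2 ∂Y.μ) := by
  classical
  have := Y.prob
  set f : Fin k → X → ℂ := fun i => (A i).indicator (fun _ => 1) with hf
  have hfB : Bounded f := fun i => ⟨measurable_const.indicator (hA i), fun x => by
    show ‖(A i).indicator (fun _ => (1 : ℂ)) x‖ ≤ 1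
    by_cases h : x ∈ A i
    · rw [Set.indicator_of_mem h]; simp
    · rw [Set.indicator_of_notMem h]; simp⟩
  set v : X → ℂ := fun x => ∑ n ∈ Finset.Icc 1 N, (c n : ℂ) * Y.P f n x with hv
  have hvm : Measurable v := Finset.measurable_sum _ fun n _ => (P_meas Y hfB n).const_mul _
  have hvb : ∀ x, ‖v x‖ ≤ ∑ n ∈ Finset.Icc 1 N, ‖(c n : ℂ)‖ := fun x => by
    refine (norm_sum_le _ _).trans (Finset.sum_le_sum fun n _ => ?_)
    rw [norm_mul]
    exact mul_le_of_le_one_right (norm_nonneg _) (P_norm Y hfB n x)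
  set u₀ : X → ℂ := A₀.indicator (fun _ => 1) with hu₀
  have hu0m : Measurable u₀ := measurable_const.indicator hA₀
  have hu0b : ∀ x, ‖u₀ x‖ ≤ 1 := fun x => by
    by_cases h : x ∈ A₀
    · rw [hu₀, Set.indicator_of_mem h]; simp
    · rw [hu₀, Set.indicator_of_notMem h]; simp
  have hPind : ∀ n x, u₀ x * Y.P f n x = (A₀ ∩ {x | ∀ i, (Y.T i)^[n] x ∈ A i}).indicator (fun _ => (1 : ℂ)) x := by
    intro n x
    unfold System.P
    by_cases h0 : x ∈ A₀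
    · by_cases h1 : ∀ i, (Y.T i)^[n] x ∈ A i
      · have h2 : x ∈ A₀ ∩ {x | ∀ i, (Y.T i)^[n] x ∈ A i} := ⟨h0, h1⟩
        rw [Set.indicator_of_mem h2, hu₀, Set.indicator_of_mem h0, one_mul]
        apply Finset.prod_eq_one
        intro i _
        exact Set.indicator_of_mem (h1 i) _
      · have h2 : x ∉ A₀ ∩ {x | ∀ i, (Y.T i)^[n] x ∈ A i} := fun h => h1 h.2
        rw [Set.indicator_of_notMem h2]
        push Not at h1
        obtain ⟨i, hi⟩ := h1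
        rw [Finset.prod_eq_zero (Finset.mem_univ i) (Set.indicator_of_notMem hi _), mul_zero]
    · have h2 : x ∉ A₀ ∩ {x | ∀ i, (Y.T i)^[n] x ∈ A i} := fun h => h0 h.1
      rw [Set.indicator_of_notMem h2, hu₀, Set.indicator_of_notMem h0, zero_mul]
  have hmeas : ∀ n, MeasurableSet (A₀ ∩ {x | ∀ i, (Y.T i)^[n] x ∈ A i}) := by
    intro n
    refine hA₀.inter ?_
    rw [Set.ofPred_forall]
    refine MeasurableSet.iInter fun i => ?_
    have h1 : Measurable ((Y.T i)^[n]) := (Y.T i).measurable.iterate n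
    exact h1 (hA i)
  have e1 : ∫ x, u₀ x * v x ∂Y.μ = ((∑ n ∈ Finset.Icc 1 N, c n * Y.ret A₀ A n : ℝ) : ℂ) := by
    have e2 : ∀ x, u₀ x * v x = ∑ n ∈ Finset.Icc 1 N, (c n : ℂ) *
        (A₀ ∩ {x | ∀ i, (Y.T i)^[n] x ∈ A i}).indicator (fun _ => (1 : ℂ)) x := by
      intro x
      rw [hv]
      simp only
      rw [Finset.mul_sum]
      apply Finset.sum_congr rfl; intro n _
      rw [← hPind]; ring
    simp_rw [e2]
    rw [integral_finsetSum]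
    · push_cast
      apply Finset.sum_congr rfl; intro n _
      rw [integral_const_mul, integral_indicator_const _ (hmeas n)]
      unfold System.ret
      simp
    · intro n _
      refine Integrable.const_mul ?_ _
      exact (integrable_const (1 : ℂ)).indicator (hmeas n)
  have h1 : |∑ n ∈ Finset.Icc 1 N, c n * Y.ret A₀ A n| = ‖∫ x, u₀ x * v x ∂Y.μ‖ := by
    rw [e1, Complex.norm_real, Real.norm_eq_abs]
  rw [h1]
  have h3 : ‖∫ x, u₀ x * v x ∂Y.μ‖ ≤ ∫ x, ‖v x‖ ∂Y.μ := by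
    refine (norm_integral_le_integral_norm _).trans ?_
    apply integral_mono_of_nonneg (Filter.Eventually.of_forall fun x => norm_nonneg _)
      (bdd_int hvm hvb).norm (Filter.Eventually.of_forall fun x => ?_)
    show ‖u₀ x * v x‖ ≤ ‖v x‖
    rw [norm_mul]
    exact mul_le_of_le_one_left (norm_nonneg _) (hu0b x)
  exact h3.trans (cs hvm hvb)

/-- the uniform bound -/
theorem smallS {s : ℤ} {S : Set ℤ} {δ : ℝ} (hS : GUs s S δ) (k : ℕ) {ε : ℝ} (hε : 0 < ε) : ∃ N₀ : ℕ, 1 ≤ N₀ ∧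
    ∀ N : ℕ, N₀ ≤ N → ∀ (X : Type) [MeasurableSpace X] (Y : System k X) (f : Fin k → X → ℂ),
      Bounded f → ∫ x, ‖∑ n ∈ Finset.Icc 1 N, ((ind s S n - δ : ℝ) : ℂ) * Y.P f n x‖ ^ 2 ∂Y.μ ≤ ε * N ^ 2 := by
  obtain ⟨N0, h1, h0⟩ := ergS.{0} hS k hε
  refine ⟨N0, h1, fun N hN X _ Y f hf => ?_⟩
  have := Y.prob
  rw [← B_eq]
  exact h0 N hN X Y.μ (tp Y) (tp_mp Y) (tp_comm Y) f (BM_of hf)

/-- the mean -/
theorem smallS_mean {s : ℤ} {S : Set ℤ} {δ : ℝ} (hS : GUs s S δ) (k : ℕ) {ε : ℝ} (hε : 0 < ε) : ∃ N₀ : ℕ, 1 ≤ N₀ ∧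
    ∀ N : ℕ, N₀ ≤ N → ∀ (X : Type) [MeasurableSpace X] (Y : System k X) (f : Fin k → X → ℂ),
      Bounded f → ∫ x, ‖(∑ n ∈ Finset.Icc 1 N, ((ind s S n - δ : ℝ) : ℂ) * Y.P f n x) / N‖ ^ 2 ∂Y.μ ≤ ε ^ 2 := by
  obtain ⟨N1, h1, H1⟩ := smallS hS k (show 0 < ε ^ 2 by positivity)
  refine ⟨N1, h1, fun N hN X _ Y f hf => ?_⟩
  have h3 := H1 N hN X Y f hf
  have hNp : (0 : ℝ) < N := by exact_mod_cast (by omega : 0 < N)
  have e1 : ∀ x, ‖(∑ n ∈ Finset.Icc 1 N, ((ind s S n - δ : ℝ) : ℂ) * Y.P f n x) / N‖ ^ 2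
      = 1 / (N : ℝ) ^ 2 * ‖∑ n ∈ Finset.Icc 1 N, ((ind s S n - δ : ℝ) : ℂ) * Y.P f n x‖ ^ 2 := by
    intro x
    rw [norm_div, Complex.norm_natCast, div_pow]
    ring
  simp_rw [e1]
  rw [integral_const_mul, one_div, inv_mul_le_iff₀ (by positivity)]
  linarith

theorem smallS_ret {s : ℤ} {S : Set ℤ} {δ : ℝ} (hS : GUs s S δ) (k : ℕ) {ε : ℝ} (hε : 0 < ε) : ∃ N₀ : ℕ, 1 ≤ N₀ ∧
    ∀ N : ℕ, N₀ ≤ N → ∀ (X : Type) [MeasurableSpace X] (Y : System k X) (A₀ : Set X) (A : Fin k → Set X),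
      MeasurableSet A₀ → (∀ i, MeasurableSet (A i)) →
      |∑ n ∈ Finset.Icc 1 N, (ind s S n - δ) * Y.ret A₀ A n| ≤ ε * N := by
  obtain ⟨N0, h1, h0⟩ := smallS hS k (show 0 < ε ^ 2 by positivity)
  refine ⟨N0, h1, fun N hN X _ Y A₀ A hA₀ hA => ?_⟩
  refine (ret_sum Y hA₀ hA (fun n => ind s S n - δ) N).trans ?_
  have h2 := h0 N hN X Y (fun i => (A i).indicator (fun _ => 1)) (fun i => ⟨measurable_const.indicator (hA i), fun x => by
    show ‖(A i).indicator (fun _ => (1 : ℂ)) x‖ ≤ 1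
    by_cases h : x ∈ A i
    · rw [Set.indicator_of_mem h]; simp
    · rw [Set.indicator_of_notMem h]; simp⟩)
  calc _ ≤ Real.sqrt (ε ^ 2 * N ^ 2) := Real.sqrt_le_sqrt h2
    _ = ε * N := by
      rw [← mul_pow, Real.sqrt_sq (by positivity)]

/-- many multiple returns along the set -/
theorem manyS {s : ℤ} {S : Set ℤ} {δ : ℝ} (hS : GUs s S δ) (hδ : 0 < δ) (k : ℕ) {κ : ℝ} (hκ : 0 < κ) :
    ∃ N₀ : ℕ, 1 ≤ N₀ ∧ ∀ N : ℕ, N₀ ≤ N → ∀ (X : Type) [MeasurableSpace X] (Y : System k X) (A₀ : Set X)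
      (A : Fin k → Set X), MeasurableSet A₀ → (∀ i, MeasurableSet (A i)) → κ * N ≤ ∑ n ∈ Finset.Icc 1 N, Y.ret A₀ A n →
      δ * κ / 2 * N ≤ ∑ n ∈ Finset.Icc 1 N, ind s S n * Y.ret A₀ A n := by
  obtain ⟨N0, h0, H⟩ := smallS_ret hS k (show 0 < δ * κ / 2 by positivity)
  refine ⟨N0, h0, fun N hN X _ Y A₀ A hA₀ hA h2 => ?_⟩
  have h6 := (abs_le.1 (H N hN X Y A₀ A hA₀ hA)).1
  have e1 : ∑ n ∈ Finset.Icc 1 N, (ind s S n - δ) * Y.ret A₀ A n
      = ∑ n ∈ Finset.Icc 1 N, ind s S n * Y.ret A₀ A n - δ * ∑ n ∈ Finset.Icc 1 N, Y.ret A₀ A n := by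
    rw [Finset.mul_sum, ← Finset.sum_sub_distrib]
    apply Finset.sum_congr rfl; intro n _
    ring
  rw [e1] at h6
  have h8 : δ * (κ * N) ≤ δ * ∑ n ∈ Finset.Icc 1 N, Y.ret A₀ A n := mul_le_mul_of_nonneg_left h2 hδ.le
  linarith

theorem ret_mem {k : ℕ} {X : Type} [MeasurableSpace X] (Y : System k X) (A₀ : Set X) (A : Fin k → Set X) (n : ℕ) :
    0 ≤ Y.ret A₀ A n ∧ Y.ret A₀ A n ≤ 1 := by
  have := Y.prob
  exact ⟨measureReal_nonneg, measureReal_le_one⟩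

/-- the mean measure of the returns for one transformation -/
theorem ret_lower {X : Type} [MeasurableSpace X] (Y : System 1 X) {A : Set X} (hA : MeasurableSet A) {m : ℝ} (hm : 0 < m)
    (hAm : m ≤ Y.μ.real A) {N : ℕ} (hN : 1 ≤ N) (hN1 : 2 / m ^ 2 ≤ N) :
    m ^ 2 / 4 * N ≤ ∑ n ∈ Finset.Icc 1 N, Y.ret A (fun _ => A) n := by
  have := Y.prob
  have h3 := return_sum (tp_mp Y 0) hA (N := N) (by omega)
  rw [sum_cast] at h3
  have e : ∀ n : ℕ, Y.μ.real (A ∩ ⇑(tp Y 0 ^ (n : ℤ)) ⁻¹' A) = Y.ret A (fun _ => A) n := by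
    intro n
    unfold System.ret
    congr 1
    ext x
    simp only [Set.mem_inter_iff, Set.mem_preimage, Set.mem_ofPred_eq]
    rw [tp_pow]
    constructor
    · rintro ⟨a, b⟩; exact ⟨a, fun i => by rw [Fin.fin_one_eq_zero i]; exact b⟩
    · rintro ⟨a, b⟩; exact ⟨a, b 0⟩
  simp_rw [e] at h3
  refine le_trans ?_ h3
  rw [div_le_iff₀ (by positivity)] at hN1
  have h4 : (N : ℝ) * m ^ 2 ≤ N * Y.μ.real A ^ 2 := by
    apply mul_le_mul_of_nonneg_left _ (Nat.cast_nonneg _)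
    exact pow_le_pow_left₀ hm.le hAm 2
  linarith

/-- counting from a weighted sum -/
theorem ind_count (s : ℤ) (S : Set ℤ) (N : ℕ) (c : ℕ → ℝ) (hc : ∀ n, 0 ≤ c n ∧ c n ≤ 1) :
    ∑ n ∈ Finset.Icc 1 N, ind s S n * c n ≤ ({n : ℕ | 1 ≤ n ∧ n ≤ N ∧ 0 < c n ∧ s * n ∈ S}.ncard : ℝ) := by
  classical
  have e1 : {n : ℕ | 1 ≤ n ∧ n ≤ N ∧ 0 < c n ∧ s * n ∈ S} =
      ((Finset.Icc 1 N).filter (fun n : ℕ => 0 < c n ∧ s * (n : ℤ) ∈ S) : Finset ℕ) := by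
    ext n
    simp only [Set.mem_ofPred_eq, Finset.coe_filter, Finset.mem_Icc]
    tauto
  rw [e1, Set.ncard_coe_finset, Finset.card_filter]
  push_cast
  apply Finset.sum_le_sum; intro n _
  have hi := ind01 s S n
  have hc1 := hc n
  by_cases h3 : s * (n : ℤ) ∈ S
  · by_cases h5 : 0 < c n
    · rw [if_pos ⟨h5, h3⟩]
      nlinarith
    · have h6 : c n = 0 := le_antisymm (not_lt.1 h5) hc1.1
      rw [h6, mul_zero]
      split_ifs <;> norm_num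
  · have h4 : ind s S n = 0 := by
      unfold ind
      exact Set.indicator_of_notMem h3 _
    rw [h4, zero_mul]
    split_ifs <;> norm_num

/-- the elements of the set that are return times -/
theorem oneS {s : ℤ} {S : Set ℤ} {δ : ℝ} (hS : GUs s S δ) (hδ : 0 < δ) {m : ℝ} (hm : 0 < m) :
    ∃ N₀ : ℕ, 1 ≤ N₀ ∧ ∀ N : ℕ, N₀ ≤ N → ∀ (X : Type) [MeasurableSpace X] (Y : System 1 X) (A : Set X), MeasurableSet A →
      m ≤ Y.μ.real A →
      δ * m ^ 2 / 8 * N ≤ ({n : ℕ | 1 ≤ n ∧ n ≤ N ∧ 0 < Y.ret A (fun _ => A) n ∧ s * n ∈ S}.ncard : ℝ) := by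
  obtain ⟨N0, h0, H⟩ := manyS hS hδ 1 (show 0 < m ^ 2 / 4 by positivity)
  obtain ⟨N1, hN1⟩ := exists_nat_ge (2 / m ^ 2)
  refine ⟨N0 + N1, by omega, fun N hN X _ Y A hA hmA => ?_⟩
  have h2 : 2 / m ^ 2 ≤ (N : ℝ) := hN1.trans (by exact_mod_cast (by omega : N1 ≤ N))
  have h3 := H N (by omega) X Y A (fun _ => A) hA (fun _ => hA) (ret_lower Y hA hm hmA (by omega) h2)
  have h4 := ind_count s S N (fun n => Y.ret A (fun _ => A) n) (fun n => ret_mem Y A _ n)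
  refine le_trans (le_of_eq ?_) (h3.trans h4)
  ring

/-- limits -/
theorem limitsS {s : ℤ} {k : ℕ} {S : Set ℤ} {δ : ℝ} (hS : GUs s S δ)
    {X : Type} [MeasurableSpace X] (Y : System k X) {f : Fin k → X → ℂ} (hf : Bounded f) {L : X → ℂ} (hL : MemLp L 2 Y.μ)
    (h : Tendsto (fun N : ℕ => ∫ x, ‖(∑ n ∈ Finset.Icc 1 N, Y.P f n x) / N - L x‖ ^ 2 ∂Y.μ) atTop (𝓝 0)) :
    Tendsto (fun N : ℕ => ∫ x, ‖(∑ n ∈ Finset.Icc 1 N, (ind s S n : ℂ) * Y.P f n x) / N - δ * L x‖ ^ 2 ∂Y.μ) atTop (𝓝 0) := by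
  have := Y.prob
  -- the difference
  have h0 : Tendsto (fun N : ℕ => ∫ x, ‖(∑ n ∈ Finset.Icc 1 N, ((ind s S n - δ : ℝ) : ℂ) * Y.P f n x) / N‖ ^ 2 ∂Y.μ)
      atTop (𝓝 0) := by
    rw [Metric.tendsto_atTop]
    intro ε hε
    obtain ⟨N0, hN0, H⟩ := smallS hS k (show 0 < ε / 2 by positivity)
    refine ⟨N0, fun N hN => ?_⟩
    have h1 := H N hN X Y f hf
    have hNp : (0 : ℝ) < N := by exact_mod_cast (by omega : 0 < N)
    rw [Real.dist_eq, sub_zero, abs_of_nonneg (integral_nonneg fun _ => by positivity)]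
    have e1 : ∀ x, ‖(∑ n ∈ Finset.Icc 1 N, ((ind s S n - δ : ℝ) : ℂ) * Y.P f n x) / N‖ ^ 2
        = 1 / (N : ℝ) ^ 2 * ‖∑ n ∈ Finset.Icc 1 N, ((ind s S n - δ : ℝ) : ℂ) * Y.P f n x‖ ^ 2 := by
      intro x
      rw [norm_div, Complex.norm_natCast, div_pow]
      ring
    simp_rw [e1]
    rw [integral_const_mul, one_div, inv_mul_lt_iff₀ (by positivity)]
    have h2 : 0 < ε / 2 * (N : ℝ) ^ 2 := by positivity
    linarith
  have h1 : Tendsto (fun N : ℕ => 2 * ∫ x, ‖(∑ n ∈ Finset.Icc 1 N, ((ind s S n - δ : ℝ) : ℂ) * Y.P f n x) / N‖ ^ 2 ∂Y.μ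
      + 2 * δ ^ 2 * ∫ x, ‖(∑ n ∈ Finset.Icc 1 N, Y.P f n x) / N - L x‖ ^ 2 ∂Y.μ) atTop (𝓝 0) := by
    have := (h0.const_mul 2).add (h.const_mul (2 * δ ^ 2))
    rw [mul_zero, mul_zero, add_zero] at this
    exact this
  refine squeeze_zero (fun N => integral_nonneg fun _ => by positivity) (fun N => ?_) h1
  set a : X → ℂ := fun x => (∑ n ∈ Finset.Icc 1 N, ((ind s S n - δ : ℝ) : ℂ) * Y.P f n x) / N with ha
  set b : X → ℂ := fun x => (∑ n ∈ Finset.Icc 1 N, Y.P f n x) / N - L x with hb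
  have ham : Measurable a := (Finset.measurable_sum _ fun n _ => (P_meas Y hf n).const_mul _).div_const _
  have hab : ∀ x, ‖a x‖ ≤ (∑ n ∈ Finset.Icc 1 N, ‖((ind s S n - δ : ℝ) : ℂ)‖) / N := fun x => by
    rw [ha]
    simp only
    rw [norm_div, Complex.norm_natCast]
    apply div_le_div_of_nonneg_right _ (Nat.cast_nonneg N)
    refine (norm_sum_le _ _).trans (Finset.sum_le_sum fun n _ => ?_)
    rw [norm_mul]
    exact mul_le_of_le_one_right (norm_nonneg _) (P_norm Y hf n x)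
  have ha2 : Integrable (fun x => ‖a x‖ ^ 2) Y.μ :=
    Integrable.of_bound (ham.norm.pow_const 2).aestronglyMeasurable _ (Filter.Eventually.of_forall fun x => by
      rw [Real.norm_eq_abs, abs_of_nonneg (by positivity)]
      exact pow_le_pow_left₀ (norm_nonneg _) (hab x) 2)
  have hb0m : Measurable (fun x => (∑ n ∈ Finset.Icc 1 N, Y.P f n x) / (N : ℂ)) :=
    (Finset.measurable_sum _ fun n _ => P_meas Y hf n).div_const _
  have hb0b : ∀ x, ‖(∑ n ∈ Finset.Icc 1 N, Y.P f n x) / (N : ℂ)‖ ≤ (∑ n ∈ Finset.Icc 1 N, (1 : ℝ)) / N := fun x => by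
    rw [norm_div, Complex.norm_natCast]
    apply div_le_div_of_nonneg_right _ (Nat.cast_nonneg N)
    exact (norm_sum_le _ _).trans (Finset.sum_le_sum fun n _ => P_norm Y hf n x)
  have hb1 : MemLp (fun x => (∑ n ∈ Finset.Icc 1 N, Y.P f n x) / (N : ℂ)) 2 Y.μ :=
    MemLp.of_bound hb0m.aestronglyMeasurable _ (Filter.Eventually.of_forall hb0b)
  have hb2 : Integrable (fun x => ‖b x‖ ^ 2) Y.μ := (hb1.sub hL).integrable_norm_pow (by norm_num)
  have hmaj : Integrable (fun x => 2 * ‖a x‖ ^ 2 + 2 * δ ^ 2 * ‖b x‖ ^ 2) Y.μ := (ha2.const_mul _).add (hb2.const_mul _)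
  have h3 : ∫ x, ‖(∑ n ∈ Finset.Icc 1 N, (ind s S n : ℂ) * Y.P f n x) / N - δ * L x‖ ^ 2 ∂Y.μ
      ≤ ∫ x, (2 * ‖a x‖ ^ 2 + 2 * δ ^ 2 * ‖b x‖ ^ 2) ∂Y.μ := by
    apply integral_mono_of_nonneg (Filter.Eventually.of_forall fun x => by positivity) hmaj
      (Filter.Eventually.of_forall fun x => ?_)
    show ‖(∑ n ∈ Finset.Icc 1 N, (ind s S n : ℂ) * Y.P f n x) / N - δ * L x‖ ^ 2 ≤ 2 * ‖a x‖ ^ 2 + 2 * δ ^ 2 * ‖b x‖ ^ 2
    have e : (∑ n ∈ Finset.Icc 1 N, (ind s S n : ℂ) * Y.P f n x) / N - δ * L x = a x + δ * b x := by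
      rw [ha, hb]
      simp only
      have e1 : ∑ n ∈ Finset.Icc 1 N, ((ind s S n - δ : ℝ) : ℂ) * Y.P f n x
          = ∑ n ∈ Finset.Icc 1 N, (ind s S n : ℂ) * Y.P f n x - δ * ∑ n ∈ Finset.Icc 1 N, Y.P f n x := by
        rw [Finset.mul_sum, ← Finset.sum_sub_distrib]
        apply Finset.sum_congr rfl; intro n _
        push_cast; ring
      rw [e1]
      ring
    rw [e]
    have h4 := norm_add_le (a x) (δ * b x)
    have h5 : ‖(δ : ℂ) * b x‖ = |δ| * ‖b x‖ := by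
      rw [norm_mul, Complex.norm_real, Real.norm_eq_abs]
    rw [h5] at h4
    have h6 : ‖a x + δ * b x‖ ^ 2 ≤ (‖a x‖ + |δ| * ‖b x‖) ^ 2 := pow_le_pow_left₀ (norm_nonneg _) h4 2
    have h7 : (‖a x‖ + |δ| * ‖b x‖) ^ 2 ≤ 2 * ‖a x‖ ^ 2 + 2 * (|δ| ^ 2 * ‖b x‖ ^ 2) := by
      nlinarith [sq_nonneg (‖a x‖ - |δ| * ‖b x‖)]
    rw [sq_abs] at h7
    linarith
  rw [integral_add (ha2.const_mul _) (hb2.const_mul _), integral_const_mul, integral_const_mul] at h3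
  exact h3


end Pool.Agent.Q179.RE
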